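import Pool.Agent.Y298.EX.Stm2

/-!
# A disc mapped into its interior contains a sink which attracts it

Elementary form of the proof of the theorem of Earle and Hamilton.
-/

set_option autoImplicit false

open Set Filter Metric MeasureTheory Topology

namespace Pool.Agent.Y620.EX

open Pool.Agent.Y298.EX
open scoped NNReal

/-- the derivatives of the iterates decay -/
theorem decay {G : ℂ → ℂ} {κ : ℂ} {ρ q : ℝ} (hG : Differentiable ℂ G) (hρ : 0 < ρ) (hq0 : 0 < q)
    (hq1 : q < 1) (hq : ∀ z ∈ closedBall κ ρ, G z ∈ closedBall κ (q * ρ)) {x : ℂ}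
    (hx : x ∈ ball κ ρ) (k : ℕ) : ∀ φ : ℂ → ℂ, Differentiable ℂ φ →
      (∀ y ∈ closedBall κ ρ, ‖φ y‖ ≤ 1) →
      ‖deriv (φ ∘ G^[k]) x‖ * (1 + (1 - q) / 2) ^ k ≤ 1 / (ρ - dist x κ) := by
  have hx' : dist x κ < ρ := hx
  have hmaps : MapsTo G (closedBall κ ρ) (closedBall κ ρ) := fun z hz =>
    closedBall_subset_closedBall (by nlinarith) (hq z hz)
  induction k with
  | zero =>
    intro φ hφ hφ1
    rw [pow_zero, mul_one]
    show ‖deriv φ x‖ ≤ _
    refine Complex.norm_deriv_le_of_forall_mem_sphere_norm_le (by linarith)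
      hφ.diffContOnCl fun z hz => hφ1 z ?_
    rw [mem_sphere] at hz
    rw [mem_closedBall]
    have := dist_triangle z x κ
    linarith
  | succ k ih =>
    intro φ hφ hφ1
    set t : ℝ := (1 - q) / 2 with ht
    have ht0 : 0 < t := by rw [ht]; linarith
    set y : ℂ := G^[k] x with hy
    have hyB : y ∈ closedBall κ ρ := hmaps.iterate k (ball_subset_closedBall hx)
    have hψ := ih (fun z => φ (G z + (t : ℂ) * (G z - G y)))
      (hφ.comp (hG.add ((hG.sub_const (G y)).const_mul _))) (by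
        intro z hz
        apply hφ1
        rw [mem_closedBall, dist_eq_norm]
        have h1 : ‖G z - κ‖ ≤ q * ρ := by
          have := hq z hz; rwa [mem_closedBall, dist_eq_norm] at this
        have h2 : ‖G y - κ‖ ≤ q * ρ := by
          have := hq y hyB; rwa [mem_closedBall, dist_eq_norm] at this
        have h3 : ‖G z - G y‖ ≤ 2 * (q * ρ) := by
          have h4 : G z - G y = (G z - κ) - (G y - κ) := by ring
          rw [h4]
          exact (norm_sub_le _ _).trans (by linarith)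
        have h5 : G z + (t : ℂ) * (G z - G y) - κ = (G z - κ) + (t : ℂ) * (G z - G y) := by ring
        rw [h5]
        refine (norm_add_le _ _).trans ?_
        rw [norm_mul, Complex.norm_real, Real.norm_of_nonneg ht0.le]
        have h6 : t * ‖G z - G y‖ ≤ t * (2 * (q * ρ)) := by gcongr
        have h7 : q * ρ + t * (2 * (q * ρ)) ≤ ρ := by
          rw [ht]
          nlinarith [mul_pos hρ (sub_pos.2 hq1), mul_pos hq0 hρ,
            mul_pos (mul_pos hρ (sub_pos.2 hq1)) (sub_pos.2 hq1)]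
        linarith)
    have hit : Differentiable ℂ (G^[k]) := hG.iterate k
    have e1 : HasDerivAt ((fun z => φ (G z + (t : ℂ) * (G z - G y))) ∘ G^[k])
        (deriv φ (G y) * (deriv G y + (t : ℂ) * deriv G y) * deriv (G^[k]) x) x := by
      refine HasDerivAt.comp x ?_ (hit x).hasDerivAt
      rw [← hy]
      have h8 : HasDerivAt (fun z => G z + (t : ℂ) * (G z - G y))
          (deriv G y + (t : ℂ) * deriv G y) y :=
        ((hG y).hasDerivAt).add ((((hG y).hasDerivAt).sub_const (G y)).const_mul (t : ℂ))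
      have h9 : HasDerivAt φ (deriv φ (G y)) (G y + (t : ℂ) * (G y - G y)) := by
        rw [sub_self, mul_zero, add_zero]
        exact (hφ (G y)).hasDerivAt
      exact HasDerivAt.comp y h9 h8
    have e2 : HasDerivAt (φ ∘ G^[k + 1]) (deriv φ (G y) * deriv G y * deriv (G^[k]) x) x := by
      rw [Function.iterate_succ']
      have h9 : HasDerivAt φ (deriv φ (G y)) (G (G^[k] x)) := (hφ (G y)).hasDerivAt
      have h10 : HasDerivAt (φ ∘ G) (deriv φ (G y) * deriv G y) (G^[k] x) :=
        HasDerivAt.comp (G^[k] x) h9 (hG y).hasDerivAt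
      have h11 : HasDerivAt ((φ ∘ G) ∘ G^[k]) (deriv φ (G y) * deriv G y * deriv (G^[k]) x) x :=
        HasDerivAt.comp x h10 (hit x).hasDerivAt
      exact h11
    rw [e1.deriv] at hψ
    rw [e2.deriv]
    have e3 : deriv φ (G y) * (deriv G y + (t : ℂ) * deriv G y) * deriv (G^[k]) x =
        ((1 + t : ℝ) : ℂ) * (deriv φ (G y) * deriv G y * deriv (G^[k]) x) := by
      push_cast
      ring
    rw [e3, norm_mul, Complex.norm_real, Real.norm_of_nonneg (by linarith : (0 : ℝ) ≤ 1 + t)] at hψ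
    refine le_trans (le_of_eq ?_) hψ
    rw [pow_succ]
    ring

/-- **SINK.** -/
theorem t_sink : S_SINK := by
  intro g κ ρ n hg hρ hmap
  set G := g^[n + 1] with hG
  have hGd : Differentiable ℂ G := hg.iterate (n + 1)
  obtain ⟨q, hq0, hq1, hq⟩ : ∃ q : ℝ, 0 < q ∧ q < 1 ∧
      ∀ z ∈ closedBall κ ρ, G z ∈ closedBall κ (q * ρ) := by
    obtain ⟨z0, hz0, hmax⟩ := (isCompact_closedBall κ ρ).exists_isMaxOn
      ⟨κ, mem_closedBall_self hρ.le⟩ (f := fun z => dist (G z) κ)
      ((hGd.continuous.dist continuous_const).continuousOn)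
    have h1 : dist (G z0) κ < ρ := hmap z0 hz0
    refine ⟨max (dist (G z0) κ / ρ) (1 / 2), lt_max_of_lt_right (by norm_num),
      max_lt ((div_lt_one hρ).2 h1) (by norm_num), fun z hz => ?_⟩
    rw [mem_closedBall]
    have h2 : dist (G z) κ ≤ dist (G z0) κ := hmax hz
    have h3 : dist (G z0) κ = dist (G z0) κ / ρ * ρ := by field_simp
    refine h2.trans ?_
    calc dist (G z0) κ = dist (G z0) κ / ρ * ρ := h3
      _ ≤ _ := by gcongr; exact le_max_left _ _
  set B := closedBall κ (q * ρ) with hB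
  have hBsub : B ⊆ ball κ ρ := closedBall_subset_ball (by nlinarith)
  have hBB : MapsTo G B B := fun z hz => hq z (ball_subset_closedBall (hBsub hz))
  set r : ℝ := (1 + (1 - q) / 2)⁻¹ with hr
  have hr0 : 0 < r := by rw [hr]; apply inv_pos.2; linarith
  have hr1 : r < 1 := by
    rw [hr]
    exact inv_lt_one_of_one_lt₀ (by linarith)
  have hit : ∀ k, Differentiable ℂ (G^[k]) := fun k => hGd.iterate k
  have hder : ∀ k, ∀ x ∈ B, ‖deriv (G^[k]) x‖ ≤ r ^ k / (1 - q) := by
    intro k x hx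
    have h1 := decay hGd hρ hq0 hq1 hq (hBsub hx) k (fun z => (ρ : ℂ)⁻¹ * (z - κ))
      ((differentiable_id.sub_const κ).const_mul _) (by
        intro y hy
        rw [mem_closedBall, dist_eq_norm] at hy
        rw [norm_mul, norm_inv, Complex.norm_real, Real.norm_of_nonneg hρ.le]
        rw [inv_mul_le_iff₀ hρ]
        linarith)
    have h2 : HasDerivAt ((fun z => (ρ : ℂ)⁻¹ * (z - κ)) ∘ G^[k])
        ((ρ : ℂ)⁻¹ * deriv (G^[k]) x) x :=
      (((hit k x).hasDerivAt).sub_const κ).const_mul _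
    rw [h2.deriv, norm_mul, norm_inv, Complex.norm_real, Real.norm_of_nonneg hρ.le] at h1
    have h3 : dist x κ ≤ q * ρ := hx
    have h4 : 1 / (ρ - dist x κ) ≤ 1 / (ρ * (1 - q)) := by
      apply one_div_le_one_div_of_le (mul_pos hρ (by linarith))
      nlinarith
    have h5 : ρ⁻¹ * ‖deriv (G^[k]) x‖ * (1 + (1 - q) / 2) ^ k ≤ 1 / (ρ * (1 - q)) := h1.trans h4
    have h6 : 0 < (1 + (1 - q) / 2) ^ k := by
      apply pow_pos; linarith
    have h7 : r ^ k = ((1 + (1 - q) / 2) ^ k)⁻¹ := by rw [hr, inv_pow]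
    have h8 : 0 < 1 - q := by linarith
    rw [h7]
    have h9 : ‖deriv (G^[k]) x‖ = (ρ⁻¹ * ‖deriv (G^[k]) x‖ * (1 + (1 - q) / 2) ^ k) *
        (ρ * ((1 + (1 - q) / 2) ^ k)⁻¹) := by
      field_simp
    rw [h9]
    calc _ ≤ 1 / (ρ * (1 - q)) * (ρ * ((1 + (1 - q) / 2) ^ k)⁻¹) := by gcongr
      _ = ((1 + (1 - q) / 2) ^ k)⁻¹ / (1 - q) := by field_simp
  have hLip : ∀ k, ∀ z ∈ B, ∀ w ∈ B, ‖G^[k] z - G^[k] w‖ ≤ r ^ k / (1 - q) * ‖z - w‖ := by
    intro k z hz w hw
    exact Convex.norm_image_sub_le_of_norm_deriv_le (f := G^[k]) (C := r ^ k / (1 - q))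
      (fun x _ => hit k x) (hder k) (convex_closedBall κ (q * ρ)) hw hz
  have hlim : Tendsto (fun k : ℕ => r ^ k / (1 - q)) atTop (𝓝 0) := by
    have := (tendsto_pow_atTop_nhds_zero_of_lt_one hr0.le hr1).div_const (1 - q)
    rwa [zero_div] at this
  obtain ⟨k, hk⟩ : ∃ k : ℕ, r ^ k / (1 - q) < 1 / 2 :=
    (hlim.eventually (gt_mem_nhds (by norm_num : (0 : ℝ) < 1 / 2))).exists
  have hBit : MapsTo (G^[k]) B B := hBB.iterate k
  have hcontr : ContractingWith (1 / 2 : ℝ≥0) (hBit.restrict (G^[k]) _ _) := by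
    refine ⟨?_, ?_⟩
    · rw [← NNReal.coe_lt_coe]
      norm_num
    · apply LipschitzWith.of_dist_le_mul
      rintro ⟨z, hz⟩ ⟨w, hw⟩
      rw [Subtype.dist_eq, Subtype.dist_eq, dist_eq_norm, dist_eq_norm]
      have h1 := hLip k z hz w hw
      have h2 : r ^ k / (1 - q) * ‖z - w‖ ≤ 1 / 2 * ‖z - w‖ := by gcongr
      simpa using h1.trans h2
  have hκ : κ ∈ B := mem_closedBall_self (by positivity)
  obtain ⟨x, hx, hfix, -, -⟩ := hcontr.exists_fixedPoint' isClosed_closedBall.isComplete hBit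
    hκ (edist_ne_top _ _)
  have hfix' : G^[k] x = x := hfix
  have hGx : G x = x := by
    have h1 := hLip k (G x) (hBB hx) x hx
    have h2 : G^[k] (G x) = G x := by
      rw [← Function.iterate_succ_apply, Function.iterate_succ_apply', hfix']
    rw [h2, hfix'] at h1
    have h3 : ‖G x - x‖ ≤ 1 / 2 * ‖G x - x‖ := h1.trans (by gcongr)
    have h4 : ‖G x - x‖ = 0 := by linarith [norm_nonneg (G x - x)]
    exact sub_eq_zero.1 (norm_eq_zero.1 h4)
  refine ⟨x, hBsub hx, hGx, ?_, ?_⟩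
  · by_contra hcon
    push Not at hcon
    have h1 : HasDerivAt (G^[k]) (deriv G x ^ k) x :=
      HasDerivAt.iterate (f := G) x (hGd x).hasDerivAt hGx k
    have h2 := hder k x hx
    rw [h1.deriv, norm_pow] at h2
    have h3 : 1 ≤ ‖deriv G x‖ ^ k := one_le_pow₀ hcon
    linarith
  · intro z hz
    have h1 : (fun j : ℕ => g^[(n + 1) * j] z) = fun j : ℕ => G^[j] z := by
      funext j
      rw [Function.iterate_mul]
    rw [h1, ← tendsto_add_atTop_iff_nat 1, tendsto_iff_norm_sub_tendsto_zero]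
    have h2 : ∀ j : ℕ, ‖G^[j + 1] z - x‖ ≤ r ^ j / (1 - q) * ‖G z - x‖ := by
      intro j
      rw [Function.iterate_succ_apply]
      have h3 := hLip j (G z) (hq z hz) x hx
      rwa [Function.iterate_fixed hGx j] at h3
    refine squeeze_zero (fun j => norm_nonneg _) h2 ?_
    have := hlim.mul_const ‖G z - x‖
    rwa [zero_mul] at this

end Pool.Agent.Y620.EX
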